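import Mathlib

/-!
# Homomorphism height functions on `ℤ²`: deterministic part
-/

set_option autoImplicit false

namespace Pool.Agent.W5h92.HH

/-- Homomorphism height functions. -/
def Hom (f : ℤ × ℤ → ℤ) : Prop :=
  ∀ x y : ℤ × ℤ, |x.1 - y.1| + |x.2 - y.2| = 1 → |f x - f y| = 1

/-- The graph distance. -/
def d (x y : ℤ × ℤ) : ℤ := |x.1 - y.1| + |x.2 - y.2|

/-- `f` and `g` differ at finitely many sites. -/
def FM (f g : ℤ × ℤ → ℤ) : Prop := {x | f x ≠ g x}.Finite

theorem exists_step (n : ℕ) (x y : ℤ × ℤ) (h : d x y = n + 1) :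
    ∃ z : ℤ × ℤ, |x.1 - z.1| + |x.2 - z.2| = 1 ∧ d z y = n := by
  obtain ⟨x1, x2⟩ := x
  obtain ⟨y1, y2⟩ := y
  simp only [d, Int.abs_eq_natAbs] at h ⊢
  rcases lt_trichotomy x1 y1 with h1 | h1 | h1
  · exact ⟨(x1 + 1, x2), by simp only; omega, by simp only; omega⟩
  · rcases lt_trichotomy x2 y2 with h2 | h2 | h2
    · exact ⟨(x1, x2 + 1), by simp only; omega, by simp only; omega⟩
    · exfalso; omega
    · exact ⟨(x1, x2 - 1), by simp only; omega, by simp only; omega⟩
  · exact ⟨(x1 - 1, x2), by simp only; omega, by simp only; omega⟩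

theorem Hom.dist {f : ℤ × ℤ → ℤ} (hf : Hom f) :
    ∀ (n : ℕ) (x y : ℤ × ℤ), d x y = n → |f x - f y| ≤ n ∧ 2 ∣ f x - f y - n := by
  intro n
  induction n with
  | zero =>
    intro x y h
    have hxy : x = y := by
      obtain ⟨x1, x2⟩ := x
      obtain ⟨y1, y2⟩ := y
      simp only [d, Int.abs_eq_natAbs] at h
      refine Prod.ext ?_ ?_ <;> simp only <;> omega
    subst hxy
    simp
  | succ n ih =>
    intro x y h
    obtain ⟨z, hz, hzy⟩ := exists_step n x y (by push_cast at h; exact h)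
    have h1 := hf x z hz
    obtain ⟨h2, h3⟩ := ih z y hzy
    simp only [Int.abs_eq_natAbs] at h1 h2 ⊢
    constructor
    · omega
    · omega

theorem d_nonneg (x y : ℤ × ℤ) : 0 ≤ d x y := by
  unfold d; positivity

theorem Hom.lip {f : ℤ × ℤ → ℤ} (hf : Hom f) (x y : ℤ × ℤ) : |f x - f y| ≤ d x y := by
  obtain ⟨n, hn⟩ := Int.eq_ofNat_of_zero_le (d_nonneg x y)
  rw [hn]
  exact (hf.dist n x y hn).1

theorem Hom.parity {f : ℤ × ℤ → ℤ} (hf : Hom f) (x y : ℤ × ℤ) : 2 ∣ f x - f y - d x y := by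
  obtain ⟨n, hn⟩ := Int.eq_ofNat_of_zero_le (d_nonneg x y)
  rw [hn]
  exact (hf.dist n x y hn).2

theorem Hom.par {f g : ℤ × ℤ → ℤ} (hf : Hom f) (hg : Hom g) {u : ℤ × ℤ}
    (h : 2 ∣ f u - g u) (x : ℤ × ℤ) : 2 ∣ f x - g x := by
  have h1 := hf.parity x u
  have h2 := hg.parity x u
  omega

theorem Hom.min {f g : ℤ × ℤ → ℤ} (hf : Hom f) (hg : Hom g) {u : ℤ × ℤ}
    (h : 2 ∣ f u - g u) : Hom (fun x => Min.min (f x) (g x)) := by
  intro x y hxy
  have h1 := hf x y hxy
  have h2 := hg x y hxy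
  have h3 := hf.par hg h x
  simp only [Int.abs_eq_natAbs] at h1 h2 ⊢
  omega

theorem Hom.max {f g : ℤ × ℤ → ℤ} (hf : Hom f) (hg : Hom g) {u : ℤ × ℤ}
    (h : 2 ∣ f u - g u) : Hom (fun x => Max.max (f x) (g x)) := by
  intro x y hxy
  have h1 := hf x y hxy
  have h2 := hg x y hxy
  have h3 := hf.par hg h x
  simp only [Int.abs_eq_natAbs] at h1 h2 ⊢
  omega

theorem Hom.neg {f : ℤ × ℤ → ℤ} (hf : Hom f) : Hom (fun x => - f x) := by
  intro x y hxy
  have h1 := hf x y hxy
  simp only [Int.abs_eq_natAbs] at h1 ⊢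
  omega

theorem hom_cone (m : ℤ) (u : ℤ × ℤ) : Hom (fun y => m + d u y) := by
  intro x y hxy
  simp only [d, Int.abs_eq_natAbs] at hxy ⊢
  omega

theorem finite_ball (u : ℤ × ℤ) (n : ℤ) : {y : ℤ × ℤ | d u y ≤ n}.Finite := by
  refine (Set.finite_Icc (u.1 - n, u.2 - n) (u.1 + n, u.2 + n)).subset ?_
  intro y hy
  simp only [Set.mem_ofPred_eq, d, Int.abs_eq_natAbs] at hy
  rw [Set.mem_Icc, Prod.le_def, Prod.le_def]
  simp only
  refine ⟨⟨?_, ?_⟩, ?_, ?_⟩ <;> omega

theorem FM.refl (f : ℤ × ℤ → ℤ) : FM f f := by simp [FM]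

theorem FM.symm {f g : ℤ × ℤ → ℤ} (h : FM f g) : FM g f := by
  refine Set.Finite.subset h fun x hx => ?_
  exact fun h' => hx h'.symm

theorem FM.trans {f g k : ℤ × ℤ → ℤ} (h : FM f g) (h' : FM g k) : FM f k := by
  refine (h.union h').subset fun x hx => ?_
  by_contra hc
  simp only [Set.mem_union, Set.mem_ofPred_eq, not_or, not_not] at hc
  exact hx (hc.1.trans hc.2)

/-- The sites where a minimal modification touches the cone reach arbitrarily far. -/
theorem exists_far {g : ℤ × ℤ → ℤ} (hg : Hom g) {u : ℤ × ℤ}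
    (hmin : ∀ k, Hom k → FM g k → g u ≤ k u) (n : ℤ) :
    ∃ y, n < d u y ∧ g y = g u + d u y := by
  by_contra hc
  push Not at hc
  have hpar : 2 ∣ g u - (fun y => (g u - 2) + d u y) u := by
    have : d u u = 0 := by simp [d]
    simp only [this]
    omega
  have hk := hg.min (hom_cone (g u - 2) u) hpar
  have hfm : FM g (fun x => Min.min (g x) ((g u - 2) + d u x)) := by
    refine (finite_ball u n).subset fun y hy => ?_
    by_contra hn
    simp only [Set.mem_ofPred_eq, not_le] at hn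
    have h1 := hc y hn
    have h2 := hg.lip y u
    have h3 := hg.parity y u
    have h4 : d y u = d u y := by simp [d, abs_sub_comm]
    rw [h4] at h2 h3
    apply hy
    rw [Int.abs_eq_natAbs] at h2
    change g y = Min.min (g y) ((g u - 2) + d u y)
    omega
  have := hmin _ hk hfm
  have h0 : d u u = 0 := by simp [d]
  simp only [h0] at this
  omega

/-- A finite modification with minimal height at `u` follows a coordinate ray from `u`. -/
theorem exists_ray {g : ℤ × ℤ → ℤ} (hg : Hom g) {u : ℤ × ℤ}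
    (hmin : ∀ k, Hom k → FM g k → g u ≤ k u) :
    ∃ e : ℤ × ℤ, |e.1| + |e.2| = 1 ∧ ∀ n : ℕ, g (u + (n : ℤ) • e) = g u + n := by
  -- points between `u` and a touching point are touching points
  have hbet : ∀ y z : ℤ × ℤ, g y = g u + d u y → d u z + d z y = d u y →
      g z = g u + d u z := by
    intro y z hy hz
    have h1 := hg.lip y z
    have h2 := hg.lip z u
    have h3 : d y z = d z y := by simp [d, abs_sub_comm]
    have h4 : d z u = d u z := by simp [d, abs_sub_comm]
    rw [h3] at h1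
    rw [h4] at h2
    rw [Int.abs_eq_natAbs] at h1 h2
    omega
  -- for every length one of the four rays
  have h1 : ∀ N : ℕ, g (u + ((N : ℤ), 0)) = g u + N ∨ g (u + (-(N : ℤ), 0)) = g u + N ∨
      g (u + (0, (N : ℤ))) = g u + N ∨ g (u + (0, -(N : ℤ))) = g u + N := by
    intro N
    obtain ⟨y, hy1, hy2⟩ := exists_far hg hmin (2 * N)
    obtain ⟨u1, u2⟩ := u
    obtain ⟨y1, y2⟩ := y
    have hd : N ≤ y1 - u1 ∨ N ≤ u1 - y1 ∨ N ≤ y2 - u2 ∨ N ≤ u2 - y2 := by
      simp only [d, Int.abs_eq_natAbs] at hy1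
      omega
    rcases hd with hd | hd | hd | hd
    · left
      have := hbet (y1, y2) ((u1, u2) + ((N : ℤ), 0)) hy2 (by
        simp only [d, Int.abs_eq_natAbs, Prod.fst_add, Prod.snd_add]; omega)
      rw [this]
      simp only [d, Int.abs_eq_natAbs, Prod.fst_add, Prod.snd_add]; omega
    · right; left
      have := hbet (y1, y2) ((u1, u2) + (-(N : ℤ), 0)) hy2 (by
        simp only [d, Int.abs_eq_natAbs, Prod.fst_add, Prod.snd_add]; omega)
      rw [this]
      simp only [d, Int.abs_eq_natAbs, Prod.fst_add, Prod.snd_add]; omega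
    · right; right; left
      have := hbet (y1, y2) ((u1, u2) + (0, (N : ℤ))) hy2 (by
        simp only [d, Int.abs_eq_natAbs, Prod.fst_add, Prod.snd_add]; omega)
      rw [this]
      simp only [d, Int.abs_eq_natAbs, Prod.fst_add, Prod.snd_add]; omega
    · right; right; right
      have := hbet (y1, y2) ((u1, u2) + (0, -(N : ℤ))) hy2 (by
        simp only [d, Int.abs_eq_natAbs, Prod.fst_add, Prod.snd_add]; omega)
      rw [this]
      simp only [d, Int.abs_eq_natAbs, Prod.fst_add, Prod.snd_add]; omega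
  -- one ray for all lengths
  have hmono : ∀ (e : ℤ × ℤ), |e.1| + |e.2| = 1 → ∀ n N : ℕ, n ≤ N →
      g (u + (N : ℤ) • e) = g u + N → g (u + (n : ℤ) • e) = g u + n := by
    intro e he n N hnN hN
    have hd1 : d u (u + (N : ℤ) • e) = N := by
      simp only [d, Prod.fst_add, Prod.snd_add, Prod.smul_fst, Prod.smul_snd, smul_eq_mul,
        sub_add_cancel_left, abs_neg, abs_mul, ← mul_add, he]
      simp
    have hd2 : d u (u + (n : ℤ) • e) = n := by
      simp only [d, Prod.fst_add, Prod.snd_add, Prod.smul_fst, Prod.smul_snd, smul_eq_mul,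
        sub_add_cancel_left, abs_neg, abs_mul, ← mul_add, he]
      simp
    have hd3 : d (u + (n : ℤ) • e) (u + (N : ℤ) • e) = N - n := by
      simp only [d, Prod.fst_add, Prod.snd_add, Prod.smul_fst, Prod.smul_snd, smul_eq_mul,
        add_sub_add_left_eq_sub, ← sub_mul, abs_mul, ← mul_add, he]
      rw [mul_one, abs_sub_comm, abs_of_nonneg]
      have : (n : ℤ) ≤ N := by exact_mod_cast hnN
      omega
    have := hbet (u + (N : ℤ) • e) (u + (n : ℤ) • e) (by rw [hd1, hN]) (by
      rw [hd1, hd2, hd3]; ring)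
    rw [this, hd2]
  by_contra hc
  push Not at hc
  obtain ⟨n1, h11⟩ := hc (1, 0) (by simp)
  obtain ⟨n2, h12⟩ := hc (-1, 0) (by simp)
  obtain ⟨n3, h13⟩ := hc (0, 1) (by simp)
  obtain ⟨n4, h14⟩ := hc (0, -1) (by simp)
  have hn1 : n1 ≤ n1 + n2 + n3 + n4 := by omega
  have hn2 : n2 ≤ n1 + n2 + n3 + n4 := by omega
  have hn3 : n3 ≤ n1 + n2 + n3 + n4 := by omega
  have hn4 : n4 ≤ n1 + n2 + n3 + n4 := by omega
  rcases h1 (n1 + n2 + n3 + n4) with h | h | h | h
  · exact h11 (hmono (1, 0) (by simp) n1 _ hn1 (by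
      simpa only [Prod.smul_mk, smul_eq_mul, mul_one, mul_zero] using h))
  · exact h12 (hmono (-1, 0) (by simp) n2 _ hn2 (by
      simpa only [Prod.smul_mk, smul_eq_mul, mul_neg, mul_one, mul_zero] using h))
  · exact h13 (hmono (0, 1) (by simp) n3 _ hn3 (by
      simpa only [Prod.smul_mk, smul_eq_mul, mul_one, mul_zero] using h))
  · exact h14 (hmono (0, -1) (by simp) n4 _ hn4 (by
      simpa only [Prod.smul_mk, smul_eq_mul, mul_neg, mul_one, mul_zero] using h))

/-- Upper version. -/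
theorem exists_ray_neg {g : ℤ × ℤ → ℤ} (hg : Hom g) {u : ℤ × ℤ}
    (hmax : ∀ k, Hom k → FM g k → k u ≤ g u) :
    ∃ e : ℤ × ℤ, |e.1| + |e.2| = 1 ∧ ∀ n : ℕ, g (u + (n : ℤ) • e) = g u - n := by
  obtain ⟨e, he, h⟩ := exists_ray (g := fun x => - g x) hg.neg (u := u) (by
    intro k hk hfm
    have := hmax (fun x => - k x) hk.neg (by
      refine Set.Finite.subset hfm fun x hx => ?_
      intro h'
      apply hx
      change - g x = k x at h'
      change g x = - k x
      rw [← h', neg_neg])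
    omega)
  refine ⟨e, he, fun n => ?_⟩
  have := h n
  omega

/-- If `f` has finite modifications that are arbitrarily high and arbitrarily low at `u`, every
height function of the right parity is realised on every finite set by a finite modification. -/
theorem exists_pattern {f p : ℤ × ℤ → ℤ} (hf : Hom f) (hp : Hom p) {u : ℤ × ℤ}
    (hpar : 2 ∣ f u - p u)
    (hup : ∀ m : ℤ, ∃ g, Hom g ∧ FM f g ∧ m ≤ g u)
    (hdown : ∀ m : ℤ, ∃ g, Hom g ∧ FM f g ∧ g u ≤ m) (Δ : Finset (ℤ × ℤ)) :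
    ∃ g, Hom g ∧ FM f g ∧ ∀ x ∈ Δ, g x = p x := by
  -- a bound for the distances
  obtain ⟨R, hR⟩ : ∃ R : ℤ, ∀ x ∈ Δ, d u x ≤ R := by
    refine ⟨∑ x ∈ Δ, d u x, fun x hx => ?_⟩
    exact Finset.single_le_sum (f := fun x => d u x) (fun i _ => d_nonneg u i) hx
  obtain ⟨g1, hg1, hf1, hu1⟩ := hup (p u + 2 * R)
  obtain ⟨g2, hg2, hf2, hu2⟩ := hdown (p u - 2 * R)
  -- parity of modifications
  have hparity : ∀ g, Hom g → FM f g → 2 ∣ g u - p u := by
    intro g hg hfg
    obtain ⟨y, hy⟩ := hfg.exists_notMem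
    simp only [Set.mem_ofPred_eq, not_not] at hy
    have h1 := hf.parity y u
    have h2 := hg.parity y u
    omega
  have hp1 := hparity g1 hg1 hf1
  have hp2 := hparity g2 hg2 hf2
  have hk1 : Hom (fun x => Min.min (g1 x) (p x)) := hg1.min hp hp1
  have hk2 : Hom (fun x => Max.max (g2 x) (Min.min (g1 x) (p x))) := by
    refine hg2.max hk1 (u := u) ?_
    omega
  refine ⟨_, hk2, ?_, ?_⟩
  · refine (hf1.union hf2).subset fun x hx => ?_
    by_contra hc
    simp only [Set.mem_union, Set.mem_ofPred_eq, not_or, not_not] at hc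
    apply hx
    change f x = Max.max (g2 x) (Min.min (g1 x) (p x))
    omega
  · intro x hx
    have h1 := hg1.lip x u
    have h2 := hg2.lip x u
    have h3 := hp.lip x u
    have h4 : d x u = d u x := by simp [d, abs_sub_comm]
    have h5 := hR x hx
    rw [h4, Int.abs_eq_natAbs] at h1 h2 h3
    omega

end Pool.Agent.W5h92.HH
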