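import Pool.Agent.W5h92.HH.Basic

/-!
# Homomorphism height functions on `ℤ²`: Gibbs measures, finite modifications, the 0-1 law
-/

set_option autoImplicit false

open MeasureTheory Filter
open scoped ENNReal

namespace Pool.Agent.W5h92.HH

/-- Gibbs measures for homomorphism height functions (uniform specification, in the form of the
frozen statement). -/
def Gibbs : Set (Measure (ℤ × ℤ → ℤ)) :=
  {ν | IsProbabilityMeasure ν ∧
      (∀ᵐ f ∂ν, ∀ x y : ℤ × ℤ, |x.1 - y.1| + |x.2 - y.2| = 1 → |f x - f y| = 1) ∧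
      ∀ (Λ Δ : Finset (ℤ × ℤ)) (a b : ℤ × ℤ → ℤ),
        (∀ x y : ℤ × ℤ, |x.1 - y.1| + |x.2 - y.2| = 1 → |a x - a y| = 1) →
        (∀ x y : ℤ × ℤ, |x.1 - y.1| + |x.2 - y.2| = 1 → |b x - b y| = 1) →
        (∀ x, x ∉ Λ → a x = b x) →
        (∀ x ∈ Λ, x ∈ Δ ∧ ∀ y : ℤ × ℤ, |x.1 - y.1| + |x.2 - y.2| = 1 → y ∈ Δ) →
        ν {f | ∀ x ∈ Δ, f x = a x} = ν {f | ∀ x ∈ Δ, f x = b x}}

/-- Extremal Gibbs measures. -/
def Extremal (μ : Measure (ℤ × ℤ → ℤ)) : Prop :=
  μ ∈ Gibbs ∧ ∀ ν₁ ∈ Gibbs, ∀ ν₂ ∈ Gibbs, ∀ t : ENNReal, 0 < t → t < 1 →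
    μ = t • ν₁ + (1 - t) • ν₂ → ν₁ = ν₂

/-- Point cylinders. -/
def cyl (Δ : Finset (ℤ × ℤ)) (p : ℤ × ℤ → ℤ) : Set (ℤ × ℤ → ℤ) := {f | ∀ x ∈ Δ, f x = p x}

theorem measurableSet_cyl (Δ : Finset (ℤ × ℤ)) (p : ℤ × ℤ → ℤ) : MeasurableSet (cyl Δ p) := by
  have : cyl Δ p = ⋂ x ∈ Δ, (fun f : ℤ × ℤ → ℤ => f x) ⁻¹' {p x} := by
    ext f; simp [cyl]
  rw [this]
  exact Finset.measurableSet_biInter _ fun x _ => measurable_pi_apply x (measurableSet_singleton _)

theorem gen : (MeasurableSpace.pi : MeasurableSpace (ℤ × ℤ → ℤ)) =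
    MeasurableSpace.generateFrom {s | ∃ Δ p, s = cyl Δ p} := by
  apply le_antisymm
  · refine iSup_le fun x => ?_
    rw [← measurable_iff_comap_le]
    refine @measurable_to_countable' _ _ _ _ (MeasurableSpace.generateFrom _) _ fun k => ?_
    refine MeasurableSpace.measurableSet_generateFrom ⟨{x}, fun _ => k, ?_⟩
    ext f
    simp [cyl]
  · refine MeasurableSpace.generateFrom_le ?_
    rintro s ⟨Δ, p, rfl⟩
    exact measurableSet_cyl Δ p

theorem cyl_inter {Δ Δ' : Finset (ℤ × ℤ)} {p p' q : ℤ × ℤ → ℤ} (hq : q ∈ cyl Δ p)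
    (hq' : q ∈ cyl Δ' p') : cyl Δ p ∩ cyl Δ' p' = cyl (Δ ∪ Δ') q := by
  classical
  ext f
  simp only [cyl, Set.mem_inter_iff, Set.mem_ofPred_eq, Finset.mem_union] at hq hq' ⊢
  constructor
  · rintro ⟨h1, h2⟩ x (hx | hx)
    · rw [h1 x hx, hq x hx]
    · rw [h2 x hx, hq' x hx]
  · intro h
    exact ⟨fun x hx => by rw [h x (Or.inl hx), hq x hx],
      fun x hx => by rw [h x (Or.inr hx), hq' x hx]⟩

theorem isPi : IsPiSystem {s : Set (ℤ × ℤ → ℤ) | ∃ Δ p, s = cyl Δ p} := by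
  rintro _ ⟨Δ, p, rfl⟩ _ ⟨Δ', p', rfl⟩ ⟨q, hq, hq'⟩
  exact ⟨Δ ∪ Δ', q, cyl_inter hq hq'⟩

/-- `Δ` contains `Λ` and all its neighbours. -/
def Nbhd (Λ Δ : Finset (ℤ × ℤ)) : Prop :=
  ∀ x ∈ Λ, x ∈ Δ ∧ ∀ y : ℤ × ℤ, |x.1 - y.1| + |x.2 - y.2| = 1 → y ∈ Δ

theorem exists_nbhd (Λ : Finset (ℤ × ℤ)) : ∃ Δ, Nbhd Λ Δ := by
  classical
  refine ⟨Λ.biUnion fun x => Finset.Icc (x.1 - 1, x.2 - 1) (x.1 + 1, x.2 + 1), ?_⟩
  intro x hx
  constructor
  · refine Finset.mem_biUnion.2 ⟨x, hx, ?_⟩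
    rw [Finset.mem_Icc, Prod.le_def, Prod.le_def]
    simp only
    refine ⟨⟨?_, ?_⟩, ?_, ?_⟩ <;> omega
  · intro y hy
    refine Finset.mem_biUnion.2 ⟨x, hx, ?_⟩
    simp only [Int.abs_eq_natAbs] at hy
    rw [Finset.mem_Icc, Prod.le_def, Prod.le_def]
    simp only
    refine ⟨⟨?_, ?_⟩, ?_, ?_⟩ <;> omega

theorem hom_shift {Λ Δ : Finset (ℤ × ℤ)} {a b f : ℤ × ℤ → ℤ} (hb : Hom b)
    (hab : ∀ x, x ∉ Λ → a x = b x) (hΔ : Nbhd Λ Δ) (hf : Hom f) (hfa : f ∈ cyl Δ a) :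
    Hom (f + (b - a)) := by
  intro x y hxy
  simp only [Pi.add_apply, Pi.sub_apply]
  by_cases hx : x ∈ Λ
  · have h1 := hfa x (hΔ x hx).1
    have h2 := hfa y ((hΔ x hx).2 y hxy)
    rw [h1, h2]
    have := hb x y hxy
    convert this using 2
    ring
  · by_cases hy : y ∈ Λ
    · have h1 := hfa y (hΔ y hy).1
      have h2 := hfa x ((hΔ y hy).2 x (by
        rw [abs_sub_comm y.1 x.1, abs_sub_comm y.2 x.2]; exact hxy))
      rw [h1, h2]
      have := hb x y hxy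
      convert this using 2
      ring
    · rw [hab x hx, hab y hy]
      have := hf x y hxy
      convert this using 2
      ring

theorem mem_cyl_shift {Δ : Finset (ℤ × ℤ)} {a b f : ℤ × ℤ → ℤ} (hfa : f ∈ cyl Δ a) :
    f + (b - a) ∈ cyl Δ b := by
  intro x hx
  simp only [Pi.add_apply, Pi.sub_apply]
  rw [hfa x hx]
  ring

/-- Changing `a` into `b` preserves the Gibbs measure. -/
theorem restrict_map {ν : Measure (ℤ × ℤ → ℤ)} (hν : ν ∈ Gibbs) {Λ Δ : Finset (ℤ × ℤ)}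
    {a b : ℤ × ℤ → ℤ} (ha : Hom a) (hb : Hom b) (hab : ∀ x, x ∉ Λ → a x = b x)
    (hΔ : Nbhd Λ Δ) :
    (ν.restrict (cyl Δ a)).map (fun f => f + (b - a)) = ν.restrict (cyl Δ b) := by
  classical
  obtain ⟨hp, hhom, hdlr⟩ := hν
  have hm : Measurable (fun f : ℤ × ℤ → ℤ => f + (b - a)) := by
    rw [measurable_pi_iff]
    intro x
    simp only [Pi.add_apply, Pi.sub_apply]
    exact (measurable_pi_apply x).add_const _
  have key : ∀ Δ' p, ν ((fun f => f + (b - a)) ⁻¹' (cyl Δ' p) ∩ cyl Δ a) =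
      ν (cyl Δ' p ∩ cyl Δ b) := by
    intro Δ' p
    by_cases h : ∃ q, Hom q ∧ q ∈ cyl Δ' p ∩ cyl Δ b
    · obtain ⟨q, hq, hq1, hq2⟩ := h
      have hq' : Hom (q + (a - b)) := hom_shift ha (fun x hx => (hab x hx).symm) hΔ hq hq2
      have hqa : q + (a - b) ∈ cyl Δ a := mem_cyl_shift hq2
      have e1 : cyl Δ' p ∩ cyl Δ b = cyl (Δ' ∪ Δ) q := cyl_inter hq1 hq2
      have e2 : (fun f => f + (b - a)) ⁻¹' (cyl Δ' p) ∩ cyl Δ a =
          cyl (Δ' ∪ Δ) (q + (a - b)) := by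
        ext f
        simp only [cyl, Set.mem_inter_iff, Set.mem_preimage, Set.mem_ofPred_eq,
          Finset.mem_union, Pi.add_apply, Pi.sub_apply] at hq1 hq2 hqa ⊢
        constructor
        · rintro ⟨h1, h2⟩ x (hx | hx)
          · have := h1 x hx
            have := hq1 x hx
            omega
          · have := h2 x hx
            have := hqa x hx
            omega
        · intro h
          refine ⟨fun x hx => ?_, fun x hx => ?_⟩
          · have := h x (Or.inl hx)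
            have := hq1 x hx
            omega
          · have := h x (Or.inr hx)
            have := hqa x hx
            omega
      rw [e1, e2]
      refine hdlr Λ (Δ' ∪ Δ) (q + (a - b)) q hq' hq ?_ ?_
      · intro x hx
        simp only [Pi.add_apply, Pi.sub_apply]
        rw [hab x hx]; ring
      · intro x hx
        exact ⟨Finset.mem_union_right _ (hΔ x hx).1,
          fun y hy => Finset.mem_union_right _ ((hΔ x hx).2 y hy)⟩
    · have h0 : ν {f | ¬ Hom f} = 0 := hhom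
      have e1 : ν (cyl Δ' p ∩ cyl Δ b) = 0 := by
        refine measure_mono_null ?_ h0
        intro f hf hhf
        exact h ⟨f, hhf, hf⟩
      have e2 : ν ((fun f => f + (b - a)) ⁻¹' (cyl Δ' p) ∩ cyl Δ a) = 0 := by
        refine measure_mono_null ?_ h0
        intro f hf hhf
        exact h ⟨f + (b - a), hom_shift hb hab hΔ hhf hf.2, hf.1, mem_cyl_shift hf.2⟩
      rw [e1, e2]
  refine ext_of_generate_finite _ gen isPi ?_ ?_
  · rintro s ⟨Δ', p, rfl⟩
    rw [Measure.map_apply hm (measurableSet_cyl _ _),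
      Measure.restrict_apply (hm (measurableSet_cyl _ _)),
      Measure.restrict_apply (measurableSet_cyl _ _)]
    exact key Δ' p
  · rw [Measure.map_apply hm MeasurableSet.univ, Set.preimage_univ, Measure.restrict_apply_univ,
      Measure.restrict_apply_univ]
    have := key ∅ a
    have hc : cyl ∅ a = Set.univ := by
      ext f; simp [cyl]
    simpa [hc] using this

/-- The measure of `T ∩ [b]` and of its preimage. -/
theorem measure_shift {ν : Measure (ℤ × ℤ → ℤ)} (hν : ν ∈ Gibbs) {Λ Δ : Finset (ℤ × ℤ)}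
    {a b : ℤ × ℤ → ℤ} (ha : Hom a) (hb : Hom b) (hab : ∀ x, x ∉ Λ → a x = b x)
    (hΔ : Nbhd Λ Δ) {T : Set (ℤ × ℤ → ℤ)} (hT : MeasurableSet T) :
    ν ((fun f => f + (b - a)) ⁻¹' T ∩ cyl Δ a) = ν (T ∩ cyl Δ b) := by
  have hm : Measurable (fun f : ℤ × ℤ → ℤ => f + (b - a)) := by
    rw [measurable_pi_iff]
    intro x
    simp only [Pi.add_apply, Pi.sub_apply]
    exact (measurable_pi_apply x).add_const _
  have h := restrict_map hν ha hb hab hΔ
  have h' := congrArg (fun m => m T) h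
  rwa [Measure.map_apply hm hT, Measure.restrict_apply (hm hT), Measure.restrict_apply hT] at h'

/-- Conditioning on an event that is invariant under finite modifications. -/
theorem cond_mem {μ : Measure (ℤ × ℤ → ℤ)} (hμ : μ ∈ Gibbs) {T : Set (ℤ × ℤ → ℤ)}
    (hT : MeasurableSet T) (hinv : ∀ (f : ℤ × ℤ → ℤ) (c : (ℤ × ℤ) →₀ ℤ), f ∈ T → f + ⇑c ∈ T)
    (h0 : μ T ≠ 0) : ProbabilityTheory.cond μ T ∈ Gibbs := by
  have hp : IsProbabilityMeasure μ := hμ.1
  refine ⟨ProbabilityTheory.cond_isProbabilityMeasure h0, ?_, ?_⟩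
  · exact ProbabilityTheory.cond_absolutelyContinuous.ae_le hμ.2.1
  · intro Λ Δ a b ha hb hab hΔ
    change ProbabilityTheory.cond μ T (cyl Δ a) = ProbabilityTheory.cond μ T (cyl Δ b)
    rw [ProbabilityTheory.cond_apply hT, ProbabilityTheory.cond_apply hT]
    congr 1
    rw [← measure_shift hμ ha hb hab hΔ hT]
    congr 1
    have hfin : ((b - a).support : Set (ℤ × ℤ)).Finite := by
      refine Λ.finite_toSet.subset fun x hx => ?_
      by_contra hc
      exact hx (by simp [hab x hc])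
    have hfin' : ((a - b).support : Set (ℤ × ℤ)).Finite := by
      refine Λ.finite_toSet.subset fun x hx => ?_
      by_contra hc
      exact hx (by simp [hab x hc])
    ext f
    simp only [Set.mem_inter_iff, Set.mem_preimage]
    refine and_congr_left fun _ => ⟨fun h => ?_, fun h => ?_⟩
    · have := hinv f (Finsupp.ofSupportFinite (b - a) hfin) h
      exact this
    · have := hinv (f + (b - a)) (Finsupp.ofSupportFinite (a - b) hfin') h
      have e : f + (b - a) + (a - b) = f := by ring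
      rw [Finsupp.ofSupportFinite_coe, e] at this
      exact this

/-- The 0-1 law for extremal Gibbs measures. -/
theorem zero_one {μ : Measure (ℤ × ℤ → ℤ)} (hμ : Extremal μ) {T : Set (ℤ × ℤ → ℤ)}
    (hT : MeasurableSet T) (hinv : ∀ (f : ℤ × ℤ → ℤ) (c : (ℤ × ℤ) →₀ ℤ), f ∈ T → f + ⇑c ∈ T)
    (h0 : μ T ≠ 0) : μ Tᶜ = 0 := by
  by_contra h1
  have hp : IsProbabilityMeasure μ := hμ.1.1
  have hinv' : ∀ (f : ℤ × ℤ → ℤ) (c : (ℤ × ℤ) →₀ ℤ), f ∈ Tᶜ → f + ⇑c ∈ Tᶜ := by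
    intro f c hf hc
    apply hf
    have := hinv _ (-c) hc
    simpa using this
  have hn1 := cond_mem hμ.1 hT hinv h0
  have hn2 := cond_mem hμ.1 hT.compl hinv' h1
  have hlt : μ T < 1 := by
    have h2 := prob_compl_eq_one_sub (μ := μ) hT
    rw [h2] at h1
    by_contra hc
    exact h1 (tsub_eq_zero_of_le (not_lt.1 hc))
  have heq := hμ.2 _ hn1 _ hn2 (μ T) (pos_iff_ne_zero.2 h0) hlt (by
    rw [← prob_compl_eq_one_sub hT]
    simp only [ProbabilityTheory.cond]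
    rw [smul_smul, smul_smul, ENNReal.mul_inv_cancel h0 (measure_ne_top _ _),
      ENNReal.mul_inv_cancel h1 (measure_ne_top _ _), one_smul, one_smul,
      Measure.restrict_add_restrict_compl hT])
  have h3 : ProbabilityTheory.cond μ T Tᶜ = 0 := by
    rw [ProbabilityTheory.cond_apply hT]
    simp
  have h4 : ProbabilityTheory.cond μ Tᶜ Tᶜ = 1 := by
    have : IsProbabilityMeasure (ProbabilityTheory.cond μ Tᶜ) := hn2.1
    rw [ProbabilityTheory.cond_apply hT.compl, Set.inter_self,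
      ENNReal.inv_mul_cancel h1 (measure_ne_top _ _)]
  rw [heq, h4] at h3
  exact one_ne_zero h3

theorem measurableSet_hom : MeasurableSet {f : ℤ × ℤ → ℤ | Hom f} := by
  have : {f : ℤ × ℤ → ℤ | Hom f} = ⋂ (x : ℤ × ℤ) (y : ℤ × ℤ),
      {f | |x.1 - y.1| + |x.2 - y.2| = 1 → |f x - f y| = 1} := by
    ext f; simp [Hom]
  rw [this]
  refine MeasurableSet.iInter fun x => MeasurableSet.iInter fun y => ?_
  by_cases h : |x.1 - y.1| + |x.2 - y.2| = 1
  · simp only [h, true_implies]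
    have hm : Measurable (fun f : ℤ × ℤ → ℤ => |f x - f y|) := by
      have : Measurable (fun k : ℤ × ℤ => |k.1 - k.2|) := measurable_of_countable _
      have h2 : Measurable (fun f : ℤ × ℤ → ℤ => (f x, f y)) :=
        (measurable_pi_apply x).prodMk (measurable_pi_apply y)
      exact this.comp h2
    exact hm (measurableSet_singleton 1)
  · simp [h]

theorem measurable_shift (c : (ℤ × ℤ) →₀ ℤ) :
    Measurable (fun f : ℤ × ℤ → ℤ => f + ⇑c) := by
  rw [measurable_pi_iff]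
  intro x
  simp only [Pi.add_apply]
  exact (measurable_pi_apply x).add_const _

/-- The finitely supported difference of two functions. -/
theorem exists_finsupp {f g : ℤ × ℤ → ℤ} (h : FM f g) : ∃ c : (ℤ × ℤ) →₀ ℤ, g = f + ⇑c := by
  have hfin : ((g - f).support : Set (ℤ × ℤ)).Finite := by
    refine Set.Finite.subset h fun x hx hc => hx ?_
    simp [hc]
  refine ⟨Finsupp.ofSupportFinite (g - f) hfin, ?_⟩
  rw [Finsupp.ofSupportFinite_coe]
  ring

theorem fm_shift (f : ℤ × ℤ → ℤ) (c : (ℤ × ℤ) →₀ ℤ) : FM f (f + ⇑c) := by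
  refine c.support.finite_toSet.subset fun x hx => ?_
  by_contra hc
  apply hx
  simp only [Finset.mem_coe, Finsupp.mem_support_iff, not_not] at hc
  simp [hc]

/-- An event of positive probability is reached from almost every configuration by a finite
modification. -/
theorem ae_exists {μ : Measure (ℤ × ℤ → ℤ)} (hμ : Extremal μ) {E : Set (ℤ × ℤ → ℤ)}
    (hE : MeasurableSet E) (h0 : μ E ≠ 0) :
    ∀ᵐ f ∂μ, ∃ g, Hom g ∧ FM f g ∧ g ∈ E := by
  set T : Set (ℤ × ℤ → ℤ) := ⋃ c : (ℤ × ℤ) →₀ ℤ, (fun f => f + ⇑c) ⁻¹' (E ∩ {f | Hom f}) with hTdef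
  have hT : MeasurableSet T := MeasurableSet.iUnion fun c =>
    measurable_shift c (hE.inter measurableSet_hom)
  have hinv : ∀ (f : ℤ × ℤ → ℤ) (c : (ℤ × ℤ) →₀ ℤ), f ∈ T → f + ⇑c ∈ T := by
    intro f c hf
    rw [hTdef, Set.mem_iUnion] at hf ⊢
    obtain ⟨c', hc'⟩ := hf
    refine ⟨c' - c, ?_⟩
    rw [Set.mem_preimage] at hc' ⊢
    have : f + ⇑c + ⇑(c' - c) = f + ⇑c' := by
      rw [Finsupp.coe_sub]; ring
    rwa [this]
  have hTE : μ T ≠ 0 := by
    intro hc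
    apply h0
    have h1 : μ (E ∩ {f | Hom f}) = 0 := by
      refine measure_mono_null ?_ hc
      intro f hf
      rw [hTdef, Set.mem_iUnion]
      exact ⟨0, by simpa using hf⟩
    have h2 : μ {f | ¬ Hom f} = 0 := hμ.1.2.1
    refine measure_mono_null (t := (E ∩ {f | Hom f}) ∪ {f | ¬ Hom f}) ?_
      (measure_union_null h1 h2)
    intro f hf
    by_cases h : Hom f
    · exact Or.inl ⟨hf, h⟩
    · exact Or.inr h
  have h1 := zero_one hμ hT hinv hTE
  have h2 : ∀ᵐ f ∂μ, f ∈ T := h1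
  filter_upwards [h2] with f hf
  rw [hTdef, Set.mem_iUnion] at hf
  obtain ⟨c, hc1, hc2⟩ := hf
  exact ⟨f + ⇑c, hc2, fm_shift f c, hc1⟩

/-- A null event is almost surely not reached by a finite modification. -/
theorem ae_not_exists {μ : Measure (ℤ × ℤ → ℤ)} (hμ : μ ∈ Gibbs) {E : Set (ℤ × ℤ → ℤ)}
    (hE : MeasurableSet E) (h0 : μ E = 0) :
    ∀ᵐ f ∂μ, ∀ g, Hom g → FM f g → g ∉ E := by
  have h1 : ∀ c : (ℤ × ℤ) →₀ ℤ, μ {f | Hom f ∧ Hom (f + ⇑c) ∧ f + ⇑c ∈ E} = 0 := by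
    intro c
    obtain ⟨Δ, hΔ⟩ := exists_nbhd c.support
    have h2 : ∀ p : Δ → ℤ,
        μ {f | (∀ x : Δ, f x = p x) ∧ Hom f ∧ Hom (f + ⇑c) ∧ f + ⇑c ∈ E} = 0 := by
      intro p
      by_cases hne : ∃ a : ℤ × ℤ → ℤ, (∀ x : Δ, a x = p x) ∧ Hom a ∧ Hom (a + ⇑c) ∧ a + ⇑c ∈ E
      · obtain ⟨a, ha1, ha2, ha3, -⟩ := hne
        have h3 := measure_shift hμ ha2 ha3 (Λ := c.support) (by
          intro x hx
          rw [Finsupp.notMem_support_iff] at hx
          simp [hx]) hΔ hE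
        have h4 : μ (E ∩ cyl Δ (a + ⇑c)) = 0 := measure_mono_null Set.inter_subset_left h0
        rw [h4] at h3
        refine measure_mono_null ?_ h3
        rintro f ⟨hf1, hf2, hf3, hf4⟩
        refine ⟨?_, ?_⟩
        · rw [Set.mem_preimage]
          have : f + (a + ⇑c - a) = f + ⇑c := by ring
          rwa [this]
        · intro x hx
          rw [hf1 ⟨x, hx⟩, ha1 ⟨x, hx⟩]
      · have : {f : ℤ × ℤ → ℤ | (∀ x : Δ, f x = p x) ∧ Hom f ∧ Hom (f + ⇑c) ∧ f + ⇑c ∈ E} = ∅ := by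
          ext f
          simp only [Set.mem_ofPred_eq, Set.mem_empty_iff_false, iff_false]
          intro hf
          exact hne ⟨f, hf⟩
        rw [this, measure_empty]
    refine measure_mono_null ?_ (measure_iUnion_null h2)
    intro f hf
    rw [Set.mem_iUnion]
    exact ⟨fun x => f x, fun x => rfl, hf⟩
  have h2 : ∀ᵐ f ∂μ, ∀ c : (ℤ × ℤ) →₀ ℤ, ¬ (Hom f ∧ Hom (f + ⇑c) ∧ f + ⇑c ∈ E) := by
    rw [ae_all_iff]
    intro c
    rw [ae_iff]
    simpa using h1 c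
  filter_upwards [h2, hμ.2.1] with f hf hhom g hg hfg hgE
  obtain ⟨c, rfl⟩ := exists_finsupp hfg
  exact hf c ⟨hhom, hg, hgE⟩

end Pool.Agent.W5h92.HH
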