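import Pool.Agent.W5h92.HH.Gibbs

/-!
# Homomorphism height functions on `ℤ²`: rays and full support
-/

set_option autoImplicit false

open MeasureTheory Filter
open scoped ENNReal Topology

namespace Pool.Agent.W5h92.HH

theorem ev_eq {f g : ℤ × ℤ → ℤ} (h : FM f g) (u : ℤ × ℤ) {e : ℤ × ℤ} (he : |e.1| + |e.2| = 1) :
    ∀ᶠ n : ℕ in atTop, f (u + (n : ℤ) • e) = g (u + (n : ℤ) • e) := by
  have hinj : Function.Injective (fun n : ℕ => u + (n : ℤ) • e) := by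
    intro n m hnm
    have h0 : e ≠ 0 := by
      rintro rfl
      simp at he
    have h1 := add_left_cancel hnm
    exact_mod_cast smul_left_injective ℤ h0 h1
  have hfin : {n : ℕ | f (u + (n : ℤ) • e) ≠ g (u + (n : ℤ) • e)}.Finite :=
    Set.Finite.preimage hinj.injOn h
  have := hfin.compl_mem_cofinite
  rw [Nat.cofinite_eq_atTop] at this
  filter_upwards [this] with n hn
  by_contra hc
  exact hn hc

theorem measurableSet_val (u : ℤ × ℤ) (S : Set ℤ) :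
    MeasurableSet {f : ℤ × ℤ → ℤ | f u ∈ S} :=
  measurable_pi_apply u (MeasurableSet.of_discrete (s := S))

theorem exists_k0 {μ : Measure (ℤ × ℤ → ℤ)} [IsProbabilityMeasure μ] (u : ℤ × ℤ) (σ m : ℤ)
    (h : ∀ᵐ f ∂μ, m ≤ σ * f u) :
    ∃ k0 : ℤ, μ {f | σ * f u = k0} ≠ 0 ∧ μ {f | σ * f u < k0} = 0 := by
  have hex : ∃ k : ℤ, μ {f | σ * f u = k} ≠ 0 := by
    by_contra hc
    push Not at hc
    have h1 : μ (⋃ k : ℤ, {f | σ * f u = k}) = 0 := measure_iUnion_null hc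
    have h2 : (⋃ k : ℤ, {f : ℤ × ℤ → ℤ | σ * f u = k}) = Set.univ := by
      ext f; simp
    rw [h2, measure_univ] at h1
    exact one_ne_zero h1
  obtain ⟨k0, hk0, hk0'⟩ := Int.exists_least_of_bdd (P := fun k => μ {f | σ * f u = k} ≠ 0)
    ⟨m, fun z hz => by
      by_contra hc
      apply hz
      refine measure_mono_null ?_ h
      intro f hf hmf
      have hmf' : m ≤ σ * f u := hmf
      have hf' : σ * f u = z := hf
      omega⟩ hex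
  refine ⟨k0, hk0, ?_⟩
  have h1 : μ (⋃ k : {k : ℤ // k < k0}, {f | σ * f u = k.1}) = 0 := by
    refine measure_iUnion_null fun k => ?_
    by_contra hc
    have := hk0' k.1 hc
    have := k.2
    omega
  refine measure_mono_null ?_ h1
  intro f hf
  rw [Set.mem_iUnion]
  exact ⟨⟨σ * f u, hf⟩, rfl⟩

theorem Hom.sign {f : ℤ × ℤ → ℤ} (hf : Hom f) {σ : ℤ} (hσ : σ = 1 ∨ σ = -1) :
    Hom (fun x => σ * f x) := by
  rcases hσ with rfl | rfl
  · simpa using hf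
  · simpa using hf.neg

theorem FM.sign {f g : ℤ × ℤ → ℤ} (h : FM f g) (σ : ℤ) :
    FM (fun x => σ * f x) (fun x => σ * g x) := by
  refine Set.Finite.subset h fun x hx hc => hx ?_
  simp only
  rw [hc]

theorem exists_dir {μ : Measure (ℤ × ℤ → ℤ)} (hμ : Extremal μ) (u : ℤ × ℤ) {σ : ℤ}
    (hσ : σ = 1 ∨ σ = -1) {m : ℤ} (h : ∀ᵐ f ∂μ, m ≤ σ * f u) :
    ∃ k0 : ℤ, ∀ᵐ f ∂μ, ∃ e : ℤ × ℤ, |e.1| + |e.2| = 1 ∧
      ∀ᶠ n : ℕ in atTop, σ * f (u + (n : ℤ) • e) = k0 + n := by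
  have hp : IsProbabilityMeasure μ := hμ.1.1
  obtain ⟨k0, hk0, hk1⟩ := exists_k0 u σ m h
  have hss : σ * σ = 1 := by rcases hσ with rfl | rfl <;> rfl
  refine ⟨k0, ?_⟩
  have h1 := ae_exists hμ (measurableSet_val u {k | σ * k = k0}) hk0
  have h2 := ae_not_exists hμ.1 (measurableSet_val u {k | σ * k < k0}) hk1
  filter_upwards [h1, h2] with f hf1 hf2
  obtain ⟨g, hg, hfg, hgu⟩ := hf1
  have hgu' : σ * g u = k0 := hgu
  obtain ⟨e, he, hray⟩ := exists_ray (g := fun x => σ * g x) (hg.sign hσ) (u := u) (by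
    intro k hk hfm
    have h3 : FM f (fun x => σ * k x) := by
      refine hfg.trans ?_
      have h4 := hfm.sign σ
      have h5 : (fun x => σ * (σ * g x)) = g := by
        funext x; rw [← mul_assoc, hss, one_mul]
      rwa [h5] at h4
    have h6 := hf2 _ (hk.sign hσ) h3
    have h7 : ¬ (σ * (σ * k u) < k0) := h6
    rw [← mul_assoc, hss, one_mul] at h7
    change σ * g u ≤ k u
    omega)
  refine ⟨e, he, ?_⟩
  filter_upwards [ev_eq hfg u he] with n hn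
  rw [hn, hray n]
  rw [hgu']

theorem ae_ray {μ : Measure (ℤ × ℤ → ℤ)} (hμ : Extremal μ) (u : ℤ × ℤ) {σ : ℤ}
    (hσ : σ = 1 ∨ σ = -1) {m : ℤ} (h : ∀ᵐ f ∂μ, m ≤ σ * f u) :
    ∃ (k0 : ℤ) (e : ℤ × ℤ), |e.1| + |e.2| = 1 ∧
      ∀ᵐ f ∂μ, ∀ᶠ n : ℕ in atTop, σ * f (u + (n : ℤ) • e) = k0 + n := by
  have hp : IsProbabilityMeasure μ := hμ.1.1
  obtain ⟨k0, hk⟩ := exists_dir hμ u hσ h
  refine ⟨k0, ?_⟩
  by_contra hc0
  have hc : ∀ e : ℤ × ℤ, |e.1| + |e.2| = 1 →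
      ¬ ∀ᵐ f ∂μ, ∀ᶠ n : ℕ in atTop, σ * f (u + (n : ℤ) • e) = k0 + n :=
    fun e he h => hc0 ⟨e, he, h⟩
  have h1 : ∀ e : ℤ × ℤ, ∀ᵐ f ∂μ, ¬ (|e.1| + |e.2| = 1 ∧
      ∀ᶠ n : ℕ in atTop, σ * f (u + (n : ℤ) • e) = k0 + n) := by
    intro e
    by_cases he : |e.1| + |e.2| = 1
    · set T : Set (ℤ × ℤ → ℤ) :=
        {f | ∀ᶠ n : ℕ in atTop, σ * f (u + (n : ℤ) • e) = k0 + n} with hTdef
      have hT : MeasurableSet T := by
        have : T = ⋃ N : ℕ, ⋂ n : ℕ, ⋂ _ : N ≤ n,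
            {f | f (u + (n : ℤ) • e) ∈ {k : ℤ | σ * k = k0 + n}} := by
          ext f
          simp only [hTdef, Set.mem_ofPred_eq, eventually_atTop, Set.mem_iUnion, Set.mem_iInter]
        rw [this]
        exact MeasurableSet.iUnion fun N => MeasurableSet.iInter fun n =>
          MeasurableSet.iInter fun _ => measurableSet_val _ _
      have hinv : ∀ (f : ℤ × ℤ → ℤ) (c : (ℤ × ℤ) →₀ ℤ), f ∈ T → f + ⇑c ∈ T := by
        intro f c hf
        have h2 := ev_eq (fm_shift f c) u he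
        have hf' : ∀ᶠ n : ℕ in atTop, σ * f (u + (n : ℤ) • e) = k0 + n := hf
        change ∀ᶠ n : ℕ in atTop, σ * (f + ⇑c) (u + (n : ℤ) • e) = k0 + n
        filter_upwards [h2, hf'] with n h3 h4
        rw [← h3, h4]
      by_cases h0 : μ T = 0
      · have : ∀ᵐ f ∂μ, f ∉ T := by
          rw [ae_iff]
          simpa using h0
        filter_upwards [this] with f hf hf'
        exact hf hf'.2
      · exfalso
        have h5 : ∀ᵐ f ∂μ, f ∈ T := zero_one hμ hT hinv h0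
        exact hc e he h5
    · exact Eventually.of_forall fun f hf => he hf.1
  have h2 := ae_all_iff.2 h1
  have h3 : ∀ᵐ f ∂μ, False := by
    filter_upwards [hk, h2] with f ⟨e, he⟩ hf2
    exact hf2 e he
  rw [ae_iff] at h3
  simp at h3

/-- From a frozen ray to the ratio limit at every site. -/
theorem ratio {f : ℤ × ℤ → ℤ} (hf : Hom f) {u e : ℤ × ℤ} {σ k0 : ℤ} (hσ : σ = 1 ∨ σ = -1)
    (h : ∀ᶠ n : ℕ in atTop, σ * f (u + (n : ℤ) • e) = k0 + n) (v : ℤ × ℤ) :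
    Tendsto (fun n : ℕ => ((f (v + (n : ℤ) • e) - f v : ℤ) : ℝ) / (n : ℝ)) atTop (𝓝 (σ : ℝ)) := by
  set C : ℝ := ((d v u + |k0| + |f v| : ℤ) : ℝ) with hC
  rw [tendsto_iff_norm_sub_tendsto_zero]
  refine squeeze_zero' (Eventually.of_forall fun n => norm_nonneg _) ?_
    (tendsto_const_div_atTop_nhds_zero_nat C)
  filter_upwards [h, eventually_gt_atTop 0] with n hn hn0
  have hn0' : (0 : ℝ) < n := by exact_mod_cast hn0
  have h1 := hf.lip (v + (n : ℤ) • e) (u + (n : ℤ) • e)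
  have h2 : d (v + (n : ℤ) • e) (u + (n : ℤ) • e) = d v u := by
    simp [d]
  rw [h2] at h1
  have h3 : |f (v + (n : ℤ) • e) - f v - σ * n| ≤ d v u + |k0| + |f v| := by
    rw [Int.abs_eq_natAbs] at h1
    rw [Int.abs_eq_natAbs, Int.abs_eq_natAbs, Int.abs_eq_natAbs]
    rcases hσ with rfl | rfl
    · omega
    · omega
  have h4 : ((f (v + (n : ℤ) • e) - f v : ℤ) : ℝ) / (n : ℝ) - σ =
      ((f (v + (n : ℤ) • e) - f v - σ * n : ℤ) : ℝ) / n := by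
    push_cast
    field_simp
  rw [h4, Real.norm_eq_abs, abs_div, abs_of_pos hn0', hC]
  refine div_le_div_of_nonneg_right ?_ hn0'.le
  have h5 : |((f (v + (n : ℤ) • e) - f v - σ * n : ℤ) : ℝ)| =
      ((|f (v + (n : ℤ) • e) - f v - σ * n| : ℤ) : ℝ) := by
    rw [Int.cast_abs]
  rw [h5]
  exact_mod_cast h3

/-- A function that is eventually frozen on one ray is eventually frozen on every parallel ray. -/
theorem exists_profile {f : ℤ × ℤ → ℤ} (hf : Hom f) {u e : ℤ × ℤ} {σ k0 : ℤ}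
    (hσ : σ = 1 ∨ σ = -1) (he : |e.1| + |e.2| = 1)
    (h : ∀ᶠ n : ℕ in atTop, σ * f (u + (n : ℤ) • e) = k0 + n) (v : ℤ × ℤ) :
    ∃ c : ℤ, ∀ᶠ n : ℕ in atTop, σ * f (v + (n : ℤ) • e) = c + n := by
  -- the sequence is antitone
  have hstep : ∀ n : ℕ, σ * f (v + ((n + 1 : ℕ) : ℤ) • e) - ((n + 1 : ℕ) : ℤ) ≤
      σ * f (v + (n : ℤ) • e) - n := by
    intro n
    have h1 := hf (v + ((n + 1 : ℕ) : ℤ) • e) (v + (n : ℤ) • e) (by
      have e1 : (v + ((n + 1 : ℕ) : ℤ) • e).1 - (v + (n : ℤ) • e).1 = e.1 := by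
        simp only [Prod.fst_add, Prod.smul_fst, smul_eq_mul]; push_cast; ring
      have e2 : (v + ((n + 1 : ℕ) : ℤ) • e).2 - (v + (n : ℤ) • e).2 = e.2 := by
        simp only [Prod.snd_add, Prod.smul_snd, smul_eq_mul]; push_cast; ring
      rw [e1, e2, he])
    push_cast at h1 ⊢
    rw [Int.abs_eq_natAbs] at h1
    rcases hσ with rfl | rfl <;> omega
  have hanti : Antitone (fun n : ℕ => σ * f (v + (n : ℤ) • e) - n) := antitone_nat_of_succ_le hstep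
  obtain ⟨N, hN⟩ := eventually_atTop.1 h
  -- bounded below
  have hbdd : ∀ n : ℕ, N ≤ n → k0 - d v u ≤ σ * f (v + (n : ℤ) • e) - n := by
    intro n hn
    have h1 := hf.lip (v + (n : ℤ) • e) (u + (n : ℤ) • e)
    have h2 : d (v + (n : ℤ) • e) (u + (n : ℤ) • e) = d v u := by
      simp [d]
    have h3 := hN n hn
    rw [h2, Int.abs_eq_natAbs] at h1
    rcases hσ with rfl | rfl <;> omega
  obtain ⟨c, ⟨n0, hn0, hc⟩, hmin⟩ := Int.exists_least_of_bdd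
    (P := fun c => ∃ n : ℕ, N ≤ n ∧ σ * f (v + (n : ℤ) • e) - n = c)
    ⟨k0 - d v u, by rintro z ⟨n, hn, rfl⟩; exact hbdd n hn⟩ ⟨_, N, le_rfl, rfl⟩
  refine ⟨c, ?_⟩
  filter_upwards [eventually_ge_atTop n0] with n hn
  have h1 : σ * f (v + (n : ℤ) • e) - n ≤ σ * f (v + (n0 : ℤ) • e) - n0 := hanti hn
  have h2 := hmin _ ⟨n, hn0.trans hn, rfl⟩
  omega

/-- The deterministic boundary profile. -/
theorem ae_profile {μ : Measure (ℤ × ℤ → ℤ)} (hμ : Extremal μ) {u e : ℤ × ℤ} {σ k0 : ℤ}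
    (hσ : σ = 1 ∨ σ = -1) (he : |e.1| + |e.2| = 1)
    (h : ∀ᵐ f ∂μ, ∀ᶠ n : ℕ in atTop, σ * f (u + (n : ℤ) • e) = k0 + n) (v : ℤ × ℤ) :
    ∃ c : ℤ, ∀ᵐ f ∂μ, ∀ᶠ n : ℕ in atTop, σ * f (v + (n : ℤ) • e) = c + n := by
  have hp : IsProbabilityMeasure μ := hμ.1.1
  by_contra hc0
  have hc : ∀ c : ℤ, ¬ ∀ᵐ f ∂μ, ∀ᶠ n : ℕ in atTop, σ * f (v + (n : ℤ) • e) = c + n :=
    fun c h => hc0 ⟨c, h⟩
  have h1 : ∀ c : ℤ, ∀ᵐ f ∂μ, ¬ ∀ᶠ n : ℕ in atTop, σ * f (v + (n : ℤ) • e) = c + n := by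
    intro c
    set T : Set (ℤ × ℤ → ℤ) :=
      {f | ∀ᶠ n : ℕ in atTop, σ * f (v + (n : ℤ) • e) = c + n} with hTdef
    have hT : MeasurableSet T := by
      have : T = ⋃ N : ℕ, ⋂ n : ℕ, ⋂ _ : N ≤ n,
          {f | f (v + (n : ℤ) • e) ∈ {k : ℤ | σ * k = c + n}} := by
        ext f
        simp only [hTdef, Set.mem_ofPred_eq, eventually_atTop, Set.mem_iUnion, Set.mem_iInter]
      rw [this]
      exact MeasurableSet.iUnion fun N => MeasurableSet.iInter fun n =>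
        MeasurableSet.iInter fun _ => measurableSet_val _ _
    have hinv : ∀ (f : ℤ × ℤ → ℤ) (c : (ℤ × ℤ) →₀ ℤ), f ∈ T → f + ⇑c ∈ T := by
      intro f c' hf
      have h2 := ev_eq (fm_shift f c') v he
      have hf' : ∀ᶠ n : ℕ in atTop, σ * f (v + (n : ℤ) • e) = c + n := hf
      change ∀ᶠ n : ℕ in atTop, σ * (f + ⇑c') (v + (n : ℤ) • e) = c + n
      filter_upwards [h2, hf'] with n h3 h4
      rw [← h3, h4]
    by_cases h0 : μ T = 0
    · have : ∀ᵐ f ∂μ, f ∉ T := by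
        rw [ae_iff]
        simpa using h0
      exact this
    · exfalso
      have h5 : ∀ᵐ f ∂μ, f ∈ T := zero_one hμ hT hinv h0
      exact hc c h5
  have h2 := ae_all_iff.2 h1
  have h3 : ∀ᵐ f ∂μ, False := by
    filter_upwards [h, h2, hμ.1.2.1] with f hf hf2 hhom
    obtain ⟨c, hc⟩ := exists_profile hhom hσ he hf v
    exact hf2 c hc
  rw [ae_iff] at h3
  simp at h3

theorem ae_low {μ : Measure (ℤ × ℤ → ℤ)} (hμ : Extremal μ) (u : ℤ × ℤ)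
    (h1 : ¬ ∃ m : ℤ, ∀ᵐ f ∂μ, m ≤ f u) :
    ∀ᵐ f ∂μ, ∀ m : ℤ, ∃ g, Hom g ∧ FM f g ∧ g u ≤ m := by
  rw [ae_all_iff]
  intro m
  have h4 : μ {f | f u ∈ {k : ℤ | k < m}} ≠ 0 := by
    intro hc
    apply h1
    refine ⟨m, ?_⟩
    rw [ae_iff]
    simpa using hc
  filter_upwards [ae_exists hμ (measurableSet_val u _) h4] with f ⟨g, hg1, hg2, hg3⟩
  have : g u < m := hg3
  exact ⟨g, hg1, hg2, this.le⟩

theorem ae_high {μ : Measure (ℤ × ℤ → ℤ)} (hμ : Extremal μ) (u : ℤ × ℤ)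
    (h2 : ¬ ∃ m : ℤ, ∀ᵐ f ∂μ, f u ≤ m) :
    ∀ᵐ f ∂μ, ∀ m : ℤ, ∃ g, Hom g ∧ FM f g ∧ m ≤ g u := by
  rw [ae_all_iff]
  intro m
  have h4 : μ {f | f u ∈ {k : ℤ | m < k}} ≠ 0 := by
    intro hc
    apply h2
    refine ⟨m, ?_⟩
    rw [ae_iff]
    simpa using hc
  filter_upwards [ae_exists hμ (measurableSet_val u _) h4] with f ⟨g, hg1, hg2, hg3⟩
  have : m < g u := hg3
  exact ⟨g, hg1, hg2, this.le⟩

/-- Full support. -/
theorem full {μ : Measure (ℤ × ℤ → ℤ)} (hμ : Extremal μ) (u : ℤ × ℤ)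
    (h1 : ¬ ∃ m : ℤ, ∀ᵐ f ∂μ, m ≤ f u) (h2 : ¬ ∃ m : ℤ, ∀ᵐ f ∂μ, f u ≤ m)
    (p : ℤ × ℤ → ℤ) (hp : Hom p) (hpar : μ {f | Even (f u - p u)} ≠ 0) (Δ : Finset (ℤ × ℤ)) :
    0 < μ {f | ∀ x ∈ Δ, f x = p x} := by
  rw [pos_iff_ne_zero]
  intro h0
  have h3 := ae_low hμ u h1
  have h4 := ae_high hμ u h2
  have h5 := ae_not_exists hμ.1 (measurableSet_cyl Δ p) h0
  have h6 : ∀ᵐ f ∂μ, ¬ Even (f u - p u) := by
    filter_upwards [h3, h4, h5, hμ.1.2.1] with f a3 a4 a5 ahom hev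
    obtain ⟨g, hg1, hg2, hg3⟩ := exists_pattern ahom hp (even_iff_two_dvd.1 hev) a4 a3 Δ
    exact a5 g hg1 hg2 hg3
  apply hpar
  rw [ae_iff] at h6
  simpa using h6

end Pool.Agent.W5h92.HH
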