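import Pool.Agent.W5h92.HH.Slide

/-!
# Homomorphism height functions on `ℤ²`: the shape of the boundary profile
-/

set_option autoImplicit false

open MeasureTheory Filter
open scoped ENNReal Topology

namespace Pool.Agent.W5h92.HH

/-- A `±1` sequence without strict local minimum. -/
theorem profile_cases (C : ℤ → ℤ) (h1 : ∀ j, |C (j + 1) - C j| = 1)
    (h2 : ∀ j, ¬ (C (j + 1) = C j + 1 ∧ C (j - 1) = C j + 1)) :
    (∃ c, ∀ j, C j = c + j) ∨ (∃ c, ∀ j, C j = c - j) ∨ ∃ c j0, ∀ j, C j = c - |j - j0| := by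
  have h1' : ∀ j, C (j + 1) = C j + 1 ∨ C (j + 1) = C j - 1 := by
    intro j
    have := h1 j
    rw [Int.abs_eq_natAbs] at this
    omega
  have hup : ∀ j, C (j + 1) = C j - 1 → C (j + 1 + 1) = C (j + 1) - 1 := by
    intro j hj
    rcases h1' (j + 1) with h | h
    · exfalso
      refine h2 (j + 1) ⟨h, ?_⟩
      rw [add_sub_cancel_right]
      omega
    · exact h
  have hup' : ∀ (n : ℕ) (j : ℤ), C (j + 1) = C j - 1 → C (j + n + 1) = C (j + n) - 1 := by
    intro n
    induction n with
    | zero => intro j hj; simpa using hj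
    | succ n ih =>
      intro j hj
      have := hup _ (ih j hj)
      have e1 : j + ((n + 1 : ℕ) : ℤ) = j + n + 1 := by push_cast; ring
      rw [e1]
      exact this
  by_cases hA : ∀ j, C (j + 1) = C j + 1
  · left
    refine ⟨C 0, fun j => ?_⟩
    induction j using Int.induction_on with
    | zero => simp
    | succ i ih => rw [hA, ih]; ring
    | pred i ih =>
      have := hA (-(i : ℤ) - 1)
      rw [sub_add_cancel] at this
      omega
  by_cases hB : ∀ j, C (j + 1) = C j - 1
  · right; left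
    refine ⟨C 0, fun j => ?_⟩
    induction j using Int.induction_on with
    | zero => simp
    | succ i ih => rw [hB, ih]; ring
    | pred i ih =>
      have := hB (-(i : ℤ) - 1)
      rw [sub_add_cancel] at this
      omega
  right; right
  push Not at hA hB
  obtain ⟨ja, hja⟩ := hA
  obtain ⟨jb, hjb⟩ := hB
  have hja' : C (ja + 1) = C ja - 1 := (h1' ja).resolve_left hja
  have hbdd : ∀ z, C (z + 1) = C z - 1 → jb ≤ z := by
    intro z hz
    by_contra hlt
    push Not at hlt
    have := hup' (jb - z).toNat z hz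
    have e1 : z + (((jb - z).toNat : ℕ) : ℤ) = jb := by
      rw [Int.toNat_of_nonneg (by omega)]; ring
    rw [e1] at this
    exact hjb this
  obtain ⟨j0, hj0, hmin⟩ := Int.exists_least_of_bdd
    (P := fun z => C (z + 1) = C z - 1) ⟨jb, hbdd⟩ ⟨ja, hja'⟩
  refine ⟨C j0, j0, ?_⟩
  have hR : ∀ n : ℕ, C (j0 + n) = C j0 - n := by
    intro n
    induction n with
    | zero => simp
    | succ n ih =>
      have := hup' n j0 hj0
      push_cast
      rw [← add_assoc, this, ih]
      ring
  have hL : ∀ n : ℕ, C (j0 - n) = C j0 - n := by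
    intro n
    induction n with
    | zero => simp
    | succ n ih =>
      have hn : C (j0 - n - 1 + 1) = C (j0 - n - 1) + 1 := by
        rcases h1' (j0 - n - 1) with h | h
        · exact h
        · exfalso
          have := hmin _ h
          omega
      rw [sub_add_cancel, ih] at hn
      have e1 : j0 - ((n + 1 : ℕ) : ℤ) = j0 - n - 1 := by push_cast; ring
      rw [e1]
      push_cast
      omega
  intro j
  rcases le_total j0 j with h | h
  · have := hR (j - j0).toNat
    rw [Int.toNat_of_nonneg (by omega)] at this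
    rw [abs_of_nonneg (by omega)]
    rw [← this]
    congr 1
    ring
  · have := hL (j0 - j).toNat
    rw [Int.toNat_of_nonneg (by omega)] at this
    rw [abs_of_nonpos (by omega)]
    have e1 : j0 - (j0 - j) = j := by ring
    rw [e1] at this
    omega

/-- The slope of the profile. -/
theorem profile_step {μ : Measure (ℤ × ℤ → ℤ)} (hμ : μ ∈ Gibbs) {σ : ℤ} (hσ : σ = 1 ∨ σ = -1)
    {e : ℤ × ℤ} (he : |e.1| + |e.2| = 1) (v : ℤ × ℤ) {c c' : ℤ}
    (h0 : ∀ᵐ f ∂μ, ∀ᶠ n : ℕ in atTop, σ * f (v + (n : ℤ) • e) = c + n)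
    (h1 : ∀ᵐ f ∂μ, ∀ᶠ n : ℕ in atTop, σ * f (v + perp e + (n : ℤ) • e) = c' + n) :
    |c' - c| = 1 := by
  have hp : IsProbabilityMeasure μ := hμ.1
  have : ∃ f : ℤ × ℤ → ℤ, (∀ᶠ n : ℕ in atTop, σ * f (v + (n : ℤ) • e) = c + n) ∧
      (∀ᶠ n : ℕ in atTop, σ * f (v + perp e + (n : ℤ) • e) = c' + n) ∧ Hom f := by
    have h := (h0.and (h1.and hμ.2.1)).exists
    obtain ⟨f, a, b, c⟩ := h
    exact ⟨f, a, b, c⟩
  obtain ⟨f, a0, a1, hf⟩ := this
  obtain ⟨n, b0, b1⟩ := (a0.and a1).exists
  have h3 := hf (v + perp e + (n : ℤ) • e) (v + (n : ℤ) • e) (by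
    have e1 : (v + perp e + (n : ℤ) • e).1 - (v + (n : ℤ) • e).1 = - e.2 := by
      simp only [perp, Prod.fst_add]; ring
    have e2 : (v + perp e + (n : ℤ) • e).2 - (v + (n : ℤ) • e).2 = e.1 := by
      simp only [perp, Prod.snd_add]; ring
    rw [e1, e2, abs_neg, add_comm]
    exact he)
  rw [Int.abs_eq_natAbs] at h3 ⊢
  rcases hσ with rfl | rfl <;> omega

end Pool.Agent.W5h92.HH
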