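import Pool.Agent.W5h92.HH.Main

/-!
# Homomorphism height functions on `ℤ²`: the sliding lemma
-/

set_option autoImplicit false

open MeasureTheory Filter
open scoped ENNReal Topology

namespace Pool.Agent.W5h92.HH

/-- A finite modification does not increase the measure. -/
theorem measure_modify_le {μ : Measure (ℤ × ℤ → ℤ)} (hμ : μ ∈ Gibbs) (c : (ℤ × ℤ) →₀ ℤ)
    {E : Set (ℤ × ℤ → ℤ)} (hE : MeasurableSet E) :
    μ {f | Hom f ∧ Hom (f + ⇑c) ∧ f + ⇑c ∈ E} ≤ μ E := by
  obtain ⟨Δ, hΔ⟩ := exists_nbhd c.support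
  set Q : (Δ → ℤ) → Set (ℤ × ℤ → ℤ) := fun p => {f | ∀ x : Δ, f x = p x + c x} with hQ
  have hQm : ∀ p, MeasurableSet (Q p) := by
    intro p
    have : Q p = ⋂ x : Δ, {f | f x ∈ ({p x + c x} : Set ℤ)} := by
      ext f; simp [hQ]
    rw [this]
    exact MeasurableSet.iInter fun x => measurableSet_val _ _
  have h2 : ∀ p : Δ → ℤ,
      μ {f | (∀ x : Δ, f x = p x) ∧ Hom f ∧ Hom (f + ⇑c) ∧ f + ⇑c ∈ E} ≤ μ (E ∩ Q p) := by
    intro p
    by_cases hne : ∃ a : ℤ × ℤ → ℤ, (∀ x : Δ, a x = p x) ∧ Hom a ∧ Hom (a + ⇑c) ∧ a + ⇑c ∈ E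
    · obtain ⟨a, ha1, ha2, ha3, -⟩ := hne
      have h3 := measure_shift hμ ha2 ha3 (Λ := c.support) (by
        intro x hx
        rw [Finsupp.notMem_support_iff] at hx
        simp [hx]) hΔ hE
      have h4 : E ∩ cyl Δ (a + ⇑c) ⊆ E ∩ Q p := by
        rintro f ⟨hf1, hf2⟩
        refine ⟨hf1, fun x => ?_⟩
        rw [hf2 x x.2, Pi.add_apply, ha1 x]
      refine le_trans ?_ (measure_mono h4)
      rw [← h3]
      refine measure_mono ?_
      rintro f ⟨hf1, hf2, hf3, hf4⟩
      refine ⟨?_, ?_⟩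
      · rw [Set.mem_preimage]
        have : f + (a + ⇑c - a) = f + ⇑c := by ring
        rwa [this]
      · intro x hx
        rw [hf1 ⟨x, hx⟩, ha1 ⟨x, hx⟩]
    · have : {f : ℤ × ℤ → ℤ | (∀ x : Δ, f x = p x) ∧ Hom f ∧ Hom (f + ⇑c) ∧ f + ⇑c ∈ E} = ∅ := by
        ext f
        simp only [Set.mem_ofPred_eq, Set.mem_empty_iff_false, iff_false]
        intro hf
        exact hne ⟨f, hf⟩
      rw [this, measure_empty]
      simp
  calc μ {f | Hom f ∧ Hom (f + ⇑c) ∧ f + ⇑c ∈ E}
      ≤ μ (⋃ p : Δ → ℤ, {f | (∀ x : Δ, f x = p x) ∧ Hom f ∧ Hom (f + ⇑c) ∧ f + ⇑c ∈ E}) := by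
        refine measure_mono ?_
        intro f hf
        rw [Set.mem_iUnion]
        exact ⟨fun x => f x, fun x => rfl, hf⟩
    _ ≤ ∑' p : Δ → ℤ, μ {f | (∀ x : Δ, f x = p x) ∧ Hom f ∧ Hom (f + ⇑c) ∧ f + ⇑c ∈ E} :=
        measure_iUnion_le _
    _ ≤ ∑' p : Δ → ℤ, μ (E ∩ Q p) := ENNReal.tsum_le_tsum h2
    _ = μ (⋃ p : Δ → ℤ, E ∩ Q p) := by
        refine (measure_iUnion ?_ fun p => hE.inter (hQm p)).symm
        intro p p' hpp
        rw [Function.onFun, Set.disjoint_left]
        rintro f ⟨-, h1⟩ ⟨-, h2⟩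
        apply hpp
        funext x
        have e1 := h1 x
        have e2 := h2 x
        omega
    _ ≤ μ E := measure_mono (Set.iUnion_subset fun p => Set.inter_subset_left)

/-- Flipping a local minimum of `σ f`. -/
theorem hom_flip {f : ℤ × ℤ → ℤ} (hf : Hom f) {σ : ℤ} (hσ : σ = 1 ∨ σ = -1) {w : ℤ × ℤ}
    (hw : ∀ y : ℤ × ℤ, |w.1 - y.1| + |w.2 - y.2| = 1 → σ * f y = σ * f w + 1) :
    Hom (f + ⇑(Finsupp.single w (2 * σ))) := by
  classical
  intro x y hxy
  have hxy' : |y.1 - x.1| + |y.2 - x.2| = 1 := by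
    rw [abs_sub_comm y.1 x.1, abs_sub_comm y.2 x.2]; exact hxy
  have hne : x ≠ y := by
    rintro rfl
    simp at hxy
  simp only [Pi.add_apply]
  by_cases hx : x = w
  · subst hx
    have hy : y ≠ x := hne.symm
    rw [Finsupp.single_eq_same, Finsupp.single_eq_of_ne hy]
    have h1 := hw y hxy
    rw [Int.abs_eq_natAbs]
    rcases hσ with rfl | rfl <;> omega
  · by_cases hy : y = w
    · subst hy
      rw [Finsupp.single_eq_same, Finsupp.single_eq_of_ne hx]
      have h1 := hw x hxy'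
      rw [Int.abs_eq_natAbs]
      rcases hσ with rfl | rfl <;> omega
    · rw [Finsupp.single_eq_of_ne hx, Finsupp.single_eq_of_ne hy]
      simpa using hf x y hxy

/-- On a line with unit direction `e` the sequence `σ f(v + n e) - n` is antitone. -/
theorem anti_line {f : ℤ × ℤ → ℤ} (hf : Hom f) {σ : ℤ} (hσ : σ = 1 ∨ σ = -1) {e : ℤ × ℤ}
    (he : |e.1| + |e.2| = 1) (v : ℤ × ℤ) {m n : ℤ} (hmn : m ≤ n) :
    σ * f (v + n • e) - n ≤ σ * f (v + m • e) - m := by
  have h1 := hf.lip (v + n • e) (v + m • e)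
  have h2 : d (v + n • e) (v + m • e) = n - m := by
    simp only [d, Prod.fst_add, Prod.snd_add, Prod.smul_fst, Prod.smul_snd, smul_eq_mul,
      add_sub_add_left_eq_sub, ← sub_mul, abs_mul, ← mul_add, he]
    rw [mul_one, abs_of_nonneg (by omega)]
  rw [h2, Int.abs_eq_natAbs] at h1
  rcases hσ with rfl | rfl <;> omega

theorem ge_profile {f : ℤ × ℤ → ℤ} (hf : Hom f) {σ : ℤ} (hσ : σ = 1 ∨ σ = -1) {e : ℤ × ℤ}
    (he : |e.1| + |e.2| = 1) (v : ℤ × ℤ) {c : ℤ}
    (h : ∀ᶠ n : ℕ in atTop, σ * f (v + (n : ℤ) • e) = c + n) (m : ℤ) :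
    c + m ≤ σ * f (v + m • e) := by
  obtain ⟨N, hN⟩ := eventually_atTop.1 h
  have h1 := hN (max N m.toNat) (le_max_left _ _)
  have h2 : m ≤ ((max N m.toNat : ℕ) : ℤ) := by
    have : m ≤ (m.toNat : ℤ) := Int.self_le_toNat m
    push_cast
    omega
  have h3 := anti_line hf hσ he v h2
  omega

/-- The last deviation from the frozen profile on the line through `v` is at `k`. -/
def Last (σ c : ℤ) (v e : ℤ × ℤ) (k : ℤ) : Set (ℤ × ℤ → ℤ) :=
  {f | σ * f (v + k • e) ≠ c + k ∧ ∀ n : ℤ, k < n → σ * f (v + n • e) = c + n}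

theorem measurableSet_last (σ c : ℤ) (v e : ℤ × ℤ) (k : ℤ) : MeasurableSet (Last σ c v e k) := by
  have : Last σ c v e k = {f | f (v + k • e) ∈ {z : ℤ | σ * z ≠ c + k}} ∩
      ⋂ n : ℤ, ⋂ _ : k < n, {f | f (v + n • e) ∈ {z : ℤ | σ * z = c + n}} := by
    ext f
    simp only [Last, Set.mem_inter_iff, Set.mem_ofPred_eq, Set.mem_iInter]
  rw [this]
  exact (measurableSet_val _ _).inter (MeasurableSet.iInter fun n =>
    MeasurableSet.iInter fun _ => measurableSet_val _ _)

/-- A unit vector perpendicular to `e`. -/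
def perp (e : ℤ × ℤ) : ℤ × ℤ := (-e.2, e.1)

theorem nbr_cases {e : ℤ × ℤ} (he : |e.1| + |e.2| = 1) (w y : ℤ × ℤ)
    (h : |w.1 - y.1| + |w.2 - y.2| = 1) :
    y = w + e ∨ y = w - e ∨ y = w + perp e ∨ y = w - perp e := by
  obtain ⟨e1, e2⟩ := e
  obtain ⟨w1, w2⟩ := w
  obtain ⟨y1, y2⟩ := y
  simp only [Int.abs_eq_natAbs] at he h
  simp only [perp, Prod.mk_add_mk, Prod.mk_sub_mk, Prod.mk.injEq]
  omega

/-- The sliding lemma: a line on which the profile has a strict local minimum is frozen. -/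
theorem line_frozen {μ : Measure (ℤ × ℤ → ℤ)} (hμ : μ ∈ Gibbs) {σ : ℤ} (hσ : σ = 1 ∨ σ = -1)
    {e : ℤ × ℤ} (he : |e.1| + |e.2| = 1) (v : ℤ × ℤ) {c : ℤ}
    (h0 : ∀ᵐ f ∂μ, ∀ᶠ n : ℕ in atTop, σ * f (v + (n : ℤ) • e) = c + n)
    (h1 : ∀ᵐ f ∂μ, ∀ᶠ n : ℕ in atTop, σ * f (v + perp e + (n : ℤ) • e) = (c + 1) + n)
    (h2 : ∀ᵐ f ∂μ, ∀ᶠ n : ℕ in atTop, σ * f (v - perp e + (n : ℤ) • e) = (c + 1) + n) :
    ∀ᵐ f ∂μ, ∀ n : ℤ, σ * f (v + n • e) = c + n := by
  have hp : IsProbabilityMeasure μ := hμ.1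
  have hss : σ * σ = 1 := by rcases hσ with rfl | rfl <;> rfl
  have hstep : ∀ k, μ (Last σ c v e k) ≤ μ (Last σ c v e (k + 1)) := by
    intro k
    refine le_trans ?_ (measure_modify_le hμ (Finsupp.single (v + (k + 1) • e) (2 * σ))
      (measurableSet_last σ c v e (k + 1)))
    refine measure_mono_ae ?_
    filter_upwards [h0, h1, h2, hμ.2.1] with f a0 a1 a2 ahom hf
    obtain ⟨hk, hk'⟩ := hf
    have ahom' : Hom f := ahom
    have hw0 : σ * f (v + (k + 1) • e) = c + (k + 1) := hk' _ (by omega)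
    -- the four neighbours
    have hflip : Hom (f + ⇑(Finsupp.single (v + (k + 1) • e) (2 * σ))) := by
      refine hom_flip ahom' hσ ?_
      intro y hy
      have hadj := ahom' _ _ hy
      rw [Int.abs_eq_natAbs] at hadj
      rw [hw0]
      rcases nbr_cases he _ _ hy with rfl | rfl | rfl | rfl
      · have e1 : v + (k + 1) • e + e = v + (k + 2) • e := by
          rw [add_assoc]; congr 1
          rw [← add_one_zsmul]; congr 1; ring
        rw [e1, hk' (k + 2) (by omega)]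
        ring
      · have e1 : v + (k + 1) • e - e = v + k • e := by
          rw [add_sub_assoc]; congr 1
          rw [add_smul, one_smul, add_sub_cancel_right]
        rw [e1] at hadj ⊢
        have h3 := ge_profile ahom' hσ he v a0 k
        rcases hσ with rfl | rfl <;> omega
      · have e1 : v + (k + 1) • e + perp e = v + perp e + (k + 1) • e := by abel
        rw [e1] at hadj ⊢
        have h3 := ge_profile ahom' hσ he _ a1 (k + 1)
        rcases hσ with rfl | rfl <;> omega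
      · have e1 : v + (k + 1) • e - perp e = v - perp e + (k + 1) • e := by abel
        rw [e1] at hadj ⊢
        have h3 := ge_profile ahom' hσ he _ a2 (k + 1)
        rcases hσ with rfl | rfl <;> omega
    refine ⟨ahom', hflip, ?_, ?_⟩
    · rw [Pi.add_apply, Finsupp.single_eq_same, mul_add, hw0]
      have : σ * (2 * σ) = 2 := by rw [mul_left_comm, hss, mul_one]
      rw [this]
      omega
    · intro n hn
      have hne : v + n • e ≠ v + (k + 1) • e := by
        intro hc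
        have h0 : e ≠ 0 := by
          rintro rfl
          simp at he
        have := smul_left_injective ℤ h0 (add_left_cancel hc)
        omega
      rw [Pi.add_apply, Finsupp.single_eq_of_ne hne, add_zero]
      exact hk' n (by omega)
  -- all the events are null
  have hnull : ∀ k, μ (Last σ c v e k) = 0 := by
    intro k
    by_contra hk
    have hmono : ∀ j : ℕ, μ (Last σ c v e k) ≤ μ (Last σ c v e (k + j)) := by
      intro j
      induction j with
      | zero => simp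
      | succ j ih =>
        refine ih.trans ?_
        have := hstep (k + j)
        rw [add_assoc] at this
        exact_mod_cast this
    have hdisj : Pairwise (Function.onFun Disjoint fun j : ℕ => Last σ c v e (k + j)) := by
      intro i j hij
      rw [Function.onFun, Set.disjoint_left]
      rintro f ⟨hi, hi'⟩ ⟨hj, hj'⟩
      rcases lt_or_gt_of_ne hij with hlt | hlt
      · exact hj (hi' _ (by omega))
      · exact hi (hj' _ (by omega))
    have h3 : ∑' j : ℕ, μ (Last σ c v e (k + j)) ≤ 1 := by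
      rw [← measure_iUnion hdisj fun j => measurableSet_last _ _ _ _ _]
      exact prob_le_one
    have h4 : ∑' _ : ℕ, μ (Last σ c v e k) = ∞ := ENNReal.tsum_const_eq_top_of_ne_zero hk
    have h5 := ENNReal.tsum_le_tsum hmono
    rw [h4] at h5
    exact absurd (h5.trans h3) (by simp)
  have hall : ∀ᵐ f ∂μ, ∀ k, f ∉ Last σ c v e k := by
    rw [ae_all_iff]
    intro k
    rw [ae_iff]
    simpa using hnull k
  filter_upwards [hall, h0] with f hf hf0
  by_contra hc
  push Not at hc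
  obtain ⟨n, hn⟩ := hc
  obtain ⟨N, hN⟩ := eventually_atTop.1 hf0
  obtain ⟨k, hk1, hk2⟩ := Int.exists_greatest_of_bdd
    (P := fun k => σ * f (v + k • e) ≠ c + k) ⟨N, by
      intro z hz
      by_contra hlt
      apply hz
      have := hN z.toNat (by omega)
      have hz' : ((z.toNat : ℕ) : ℤ) = z := Int.toNat_of_nonneg (by omega)
      rwa [hz'] at this⟩ ⟨n, hn⟩
  refine hf k ⟨hk1, fun m hm => ?_⟩
  by_contra hne
  have := hk2 m hne
  omega

end Pool.Agent.W5h92.HH
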